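import Mathlib

set_option autoImplicit false
open MeasureTheory Filter

namespace Pool.Agent.Results.MP_8173ef_an.PringsheimFails

/-- Lebesgue measure on the unit square. -/
noncomputable def sq : Measure (ℝ × ℝ) :=
  (volume : Measure (ℝ × ℝ)).restrict (Set.Icc (0:ℝ) 1 ×ˢ Set.Icc (0:ℝ) 1)

/-- Admissible weights. The indices `i, k = 1, 2, ...` of the problem are renumbered `0, 1, 2, ...`. -/
def Admissible (w : ℕ → ℕ → ℝ) : Prop :=
  (∀ i k, 0 < w i k) ∧ (∀ i k, w i k ≤ w (i+1) k) ∧ (∀ i k, w i k ≤ w i (k+1)) ∧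
  (∀ B : ℝ, ∃ N, ∀ i k, N ≤ i → N ≤ k → B ≤ w i k) ∧
  (∀ i k, 0 ≤ w (i+1) (k+1) - w (i+1) k - w i (k+1) + w i k)

/-- A double orthonormal system of square integrable real functions on the unit square. -/
def DoubleOrthonormal (φ : ℕ → ℕ → ℝ × ℝ → ℝ) : Prop :=
  (∀ i k, MemLp (φ i k) 2 sq) ∧
  ∀ i k j l, ∫ z, φ i k z * φ j l z ∂sq = if i = j ∧ k = l then 1 else 0

/-- The rectangular sum of `a i k * φ i k` over all `i ≤ m`, `k ≤ n`. -/
noncomputable def rectSum (a : ℕ → ℕ → ℝ) (φ : ℕ → ℕ → ℝ × ℝ → ℝ) (m n : ℕ) (z : ℝ × ℝ) : ℝ :=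
  ∑ i ∈ Finset.range (m+1), ∑ k ∈ Finset.range (n+1), a i k * φ i k z

/-- The system has growth `w`. -/
def HasGrowth (φ : ℕ → ℕ → ℝ × ℝ → ℝ) (w : ℕ → ℕ → ℝ) : Prop :=
  ∀ a : ℕ → ℕ → ℝ, Summable (fun p : ℕ × ℕ => a p.1 p.2 ^ 2) →
    ∀ᵐ z ∂sq, ∃ C : ℝ, ∀ m n, |rectSum a φ m n z| ≤ C * Real.sqrt (w m n)

/-- Convergence in the sense of Pringsheim at the point `z`. -/
def PringsheimConverges (a : ℕ → ℕ → ℝ) (φ : ℕ → ℕ → ℝ × ℝ → ℝ) (z : ℝ × ℝ) : Prop :=
  ∃ L : ℝ, ∀ ε > 0, ∃ N, ∀ m ≥ N, ∀ n ≥ N, |rectSum a φ m n z - L| < ε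

noncomputable def fl (j : ℕ) (y : ℝ) : ℕ := ⌊(2:ℝ)^j * y⌋₊

lemma fl_meas (j : ℕ) : Measurable (fl j) := by
  unfold fl
  exact Nat.measurable_floor.comp (measurable_const.mul measurable_id)

lemma fl_div (i j : ℕ) (y : ℝ) : fl (j+i) y / 2^i = fl j y := by
  unfold fl
  have h : (2:ℝ)^j * y = ((2:ℝ)^(j+i) * y) / ((2^i : ℕ) : ℝ) := by
    push_cast
    rw [pow_add]; field_simp
  rw [h, Nat.floor_div_natCast]

lemma fl_div' (j T : ℕ) (h : j ≤ T) (y : ℝ) : fl T y / 2^(T-j) = fl j y := by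
  obtain ⟨i, rfl⟩ := Nat.exists_eq_add_of_le h
  rw [Nat.add_sub_cancel_left]; exact fl_div i j y

lemma fl_eq_iff (T v : ℕ) (y : ℝ) (hy : 0 ≤ y) :
    fl T y = v ↔ (v:ℝ)/2^T ≤ y ∧ y < ((v:ℝ)+1)/2^T := by
  unfold fl
  have h2 : (0:ℝ) < 2^T := by positivity
  rw [Nat.floor_eq_iff (by positivity), div_le_iff₀ h2, lt_div_iff₀ h2, mul_comm y]

lemma int_fl (T : ℕ) (F : ℕ → ℝ) :
    ∫ y in Set.Icc (0:ℝ) 1, F (fl T y) = ((2:ℝ)^T)⁻¹ * ∑ v ∈ Finset.range (2^T), F v := by
  have h2 : (0:ℝ) < 2^T := by positivity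
  have key : ∀ v : ℕ, ∫ y in ((v:ℝ)/2^T)..(((v+1:ℕ):ℝ)/2^T), F (fl T y) = ((2:ℝ)^T)⁻¹ * F v := by
    intro v
    have hle : (v:ℝ)/2^T ≤ ((v+1:ℕ):ℝ)/2^T := by gcongr; simp
    have : ∫ y in ((v:ℝ)/2^T)..(((v+1:ℕ):ℝ)/2^T), F (fl T y) =
        ∫ y in ((v:ℝ)/2^T)..(((v+1:ℕ):ℝ)/2^T), F v := by
      rw [intervalIntegral.integral_of_le hle, intervalIntegral.integral_of_le hle,
        ← integral_Ico_eq_integral_Ioc, ← integral_Ico_eq_integral_Ioc]
      apply setIntegral_congr_fun measurableSet_Ico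
      intro y hy
      have h0 : 0 ≤ y := le_trans (by positivity) hy.1
      have : fl T y = v := by
        rw [fl_eq_iff T v y h0]
        refine ⟨hy.1, ?_⟩
        have := hy.2
        push_cast at this
        exact this
      simp only [this]
    rw [this, intervalIntegral.integral_const, smul_eq_mul]
    push_cast
    field_simp
    ring
  have hint : ∀ v < 2^T, IntervalIntegrable (fun y => F (fl T y)) volume
      ((fun k : ℕ => (k:ℝ)/2^T) v) ((fun k : ℕ => (k:ℝ)/2^T) (v+1)) := by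
    intro v _
    have hle : (v:ℝ)/2^T ≤ ((v+1:ℕ):ℝ)/2^T := by gcongr; simp
    show IntervalIntegrable (fun y => F (fl T y)) volume ((v:ℝ)/2^T) (((v+1:ℕ):ℝ)/2^T)
    rw [intervalIntegrable_iff_integrableOn_Ico_of_le hle]
    have : Set.EqOn (fun y => F (fl T y)) (fun _ => F v) (Set.Ico ((v:ℝ)/2^T) (((v+1:ℕ):ℝ)/2^T)) := by
      intro y hy
      have h0 : 0 ≤ y := le_trans (by positivity) hy.1
      have : fl T y = v := by
        rw [fl_eq_iff T v y h0]
        refine ⟨hy.1, ?_⟩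
        have := hy.2
        push_cast at this
        exact this
      simp only [this]
    rw [integrableOn_congr_fun this measurableSet_Ico]
    exact integrableOn_const (by simp) (by simp)
  have := intervalIntegral.sum_integral_adjacent_intervals (μ := volume) (f := fun y => F (fl T y))
    (a := fun k : ℕ => (k:ℝ)/2^T) (n := 2^T) hint
  rw [integral_Icc_eq_integral_Ioc, ← intervalIntegral.integral_of_le zero_le_one]
  simp only [Nat.cast_zero, zero_div] at this
  have e1 : (((2^T : ℕ) : ℝ))/2^T = 1 := by push_cast; field_simp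
  rw [e1] at this
  rw [← this, Finset.mul_sum]
  apply Finset.sum_congr rfl
  intro v _
  exact key v

noncomputable def rad (j : ℕ) (y : ℝ) : ℝ := if fl (j+1) y % 2 = 0 then 1 else -1

lemma rad_meas (j : ℕ) : Measurable (rad j) := by
  unfold rad
  apply Measurable.ite _ measurable_const measurable_const
  exact (fl_meas (j+1)) (measurableSet_eq_fun (measurable_of_countable (fun n : ℕ => n % 2)) measurable_const)

lemma rad_abs (j : ℕ) (y : ℝ) : |rad j y| = 1 := by
  unfold rad; split_ifs <;> simp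

lemma rad_sq (j : ℕ) (y : ℝ) : rad j y * rad j y = 1 := by
  unfold rad; split_ifs <;> simp

lemma sum_range_two_mul (f : ℕ → ℝ) (n : ℕ) :
    ∑ v ∈ Finset.range (2*n), f v = ∑ u ∈ Finset.range n, (f (2*u) + f (2*u+1)) := by
  induction n with
  | zero => simp
  | succ n ih =>
    rw [Finset.sum_range_succ, ← ih, Nat.mul_succ, Finset.sum_range_succ, Finset.sum_range_succ]
    ring

lemma rad_int (j : ℕ) (F : ℕ → ℝ) :
    ∫ y in Set.Icc (0:ℝ) 1, F (fl j y) * rad j y = 0 := by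
  have : ∀ y, F (fl j y) * rad j y =
      (fun v : ℕ => F (v/2) * (if v % 2 = 0 then 1 else -1)) (fl (j+1) y) := by
    intro y
    have := fl_div 1 j y
    simp only [pow_one] at this
    simp only [rad, this]
  refine (integral_congr_ae (ae_of_all _ this)).trans ?_
  refine (int_fl (j+1) (fun v : ℕ => F (v/2) * (if v % 2 = 0 then 1 else -1))).trans ?_
  rw [show (2:ℕ)^(j+1) = 2*2^j from pow_succ' 2 j, sum_range_two_mul]
  have : ∀ u ∈ Finset.range (2^j),
      ((F (2*u/2) * (if 2*u % 2 = 0 then (1:ℝ) else -1)) +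
        (F ((2*u+1)/2) * (if (2*u+1) % 2 = 0 then (1:ℝ) else -1))) = 0 := by
    intro u _
    have h1 : 2*u/2 = u := by omega
    have h2 : (2*u+1)/2 = u := by omega
    have h3 : 2*u%2 = 0 := by omega
    have h4 : (2*u+1)%2 ≠ 0 := by omega
    rw [h1, h2, if_pos h3, if_neg h4]; ring
  rw [Finset.sum_eq_zero this, mul_zero]

noncomputable def hy (j u : ℕ) (y : ℝ) : ℝ := if fl j y = u then rad j y else 0

lemma hy_meas (j u : ℕ) : Measurable (hy j u) := by
  unfold hy
  apply Measurable.ite _ (rad_meas j) measurable_const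
  exact (fl_meas j) (measurableSet_singleton u)

lemma hy_abs (j u : ℕ) (y : ℝ) : |hy j u y| = if fl j y = u then 1 else 0 := by
  unfold hy; split_ifs <;> simp [rad_abs]

lemma hy_int_lt (j u j' u' : ℕ) (h : j < j') :
    ∫ y in Set.Icc (0:ℝ) 1, hy j u y * hy j' u' y = 0 := by
  obtain ⟨d, rfl⟩ : ∃ d, j' = j + 1 + d := ⟨j' - (j+1), by omega⟩
  have : ∀ y, hy j u y * hy (j+1+d) u' y =
      (fun w : ℕ => (if w / 2^(1+d) = u then (if (w / 2^d) % 2 = 0 then (1:ℝ) else -1) else 0)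
        * (if w = u' then 1 else 0)) (fl (j+1+d) y) * rad (j+1+d) y := by
    intro y
    have h1 := fl_div d (j+1) y
    have h2 := fl_div (1+d) j y
    rw [← add_assoc] at h2
    simp only [hy, rad, h1, h2]
    split_ifs <;> simp_all
  refine (integral_congr_ae (ae_of_all _ this)).trans ?_
  exact rad_int _ (fun w : ℕ => (if w / 2^(1+d) = u then (if (w / 2^d) % 2 = 0 then (1:ℝ) else -1) else 0)
        * (if w = u' then 1 else 0))

lemma hy_int_eq (j u u' : ℕ) (hu : u < 2^j) :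
    ∫ y in Set.Icc (0:ℝ) 1, hy j u y * hy j u' y = if u = u' then ((2:ℝ)^j)⁻¹ else 0 := by
  have : ∀ y, hy j u y * hy j u' y =
      (fun w : ℕ => if w = u ∧ u = u' then (1:ℝ) else 0) (fl j y) := by
    intro y
    simp only [hy]
    by_cases h1 : fl j y = u
    · by_cases h2 : u = u'
      · subst h2
        simp [h1, rad_sq]
      · have : ¬ (fl j y = u') := by omega
        simp [h1, h2]
    · simp [h1]
  refine (integral_congr_ae (ae_of_all _ this)).trans ?_
  refine (int_fl j (fun w : ℕ => if w = u ∧ u = u' then (1:ℝ) else 0)).trans ?_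
  by_cases h : u = u'
  · subst h
    simp [hu]
  · simp [h]

lemma hy_int (j u j' u' : ℕ) (hu : u < 2^j) :
    ∫ y in Set.Icc (0:ℝ) 1, hy j u y * hy j' u' y = if j = j' ∧ u = u' then ((2:ℝ)^j)⁻¹ else 0 := by
  rcases lt_trichotomy j j' with h | h | h
  · rw [hy_int_lt j u j' u' h, if_neg]; omega
  · subst h
    rw [hy_int_eq j u u' hu]; simp
  · have := hy_int_lt j' u' j u h
    rw [if_neg (by omega)]
    exact (integral_congr_ae (ae_of_all _ (fun y => mul_comm (hy j u y) (hy j' u' y)))).trans this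

noncomputable def PP (n k l : ℕ) : ℝ := if k / 2^n = l / 2^n then ((2:ℝ)^n)⁻¹ else 0

lemma PP_nonneg (n k l : ℕ) : 0 ≤ PP n k l := by
  unfold PP; split_ifs <;> positivity

lemma PP_comm (n k l : ℕ) : PP n k l = PP n l k := by
  unfold PP; simp only [eq_comm]

lemma card_block (T n u : ℕ) (hn : n ≤ T) (hu : u < 2^(T-n)) :
    (Finset.range (2^T)).filter (fun m => u = m / 2^n) = Finset.Ico (u*2^n) ((u+1)*2^n) := by
  ext m
  simp only [Finset.mem_filter, Finset.mem_range, Finset.mem_Ico]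
  have h2 : 0 < 2^n := by positivity
  have e : 2^T = 2^(T-n) * 2^n := by rw [← pow_add]; congr 1; omega
  constructor
  · rintro ⟨_, h⟩
    subst h
    refine ⟨Nat.div_mul_le_self m _, ?_⟩
    have := Nat.lt_mul_div_succ m h2
    rw [mul_comm] at this
    exact this
  · rintro ⟨h1, h3⟩
    have hd : m / 2^n = u := by
      apply Nat.div_eq_of_lt_le
      · exact h1
      · exact h3
    refine ⟨?_, hd.symm⟩
    rw [e]
    calc m < (u+1)*2^n := h3
      _ ≤ 2^(T-n) * 2^n := Nat.mul_le_mul_right _ hu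

lemma PP_sum (T n k : ℕ) (hn : n ≤ T) (hk : k < 2^T) :
    ∑ m ∈ Finset.range (2^T), PP n k m = 1 := by
  unfold PP
  rw [← Finset.sum_filter, Finset.sum_const]
  have hu : k / 2^n < 2^(T-n) := by
    rw [Nat.div_lt_iff_lt_mul (by positivity), ← pow_add]
    have : T - n + n = T := by omega
    rw [this]; exact hk
  rw [card_block T n _ hn hu, Nat.card_Ico, nsmul_eq_mul]
  have : (k / 2^n + 1) * 2^n - k/2^n * 2^n = 2^n := by
    rw [← Nat.sub_mul]; simp
  rw [this]
  push_cast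
  field_simp

lemma PP_mul_sum (T n k l : ℕ) (hn : n ≤ T) (hk : k < 2^T) :
    ∑ m ∈ Finset.range (2^T), PP n k m * PP n l m = PP n k l := by
  have : ∀ m, PP n k m * PP n l m = PP n k m * PP n k l := by
    intro m
    unfold PP
    by_cases h : k / 2^n = m / 2^n
    · rw [h]
      simp only [eq_comm]
    · simp [h]
  simp_rw [this]
  rw [← Finset.sum_mul, PP_sum T n k hn hk, one_mul]


instance : IsProbabilityMeasure sq := by
  constructor
  rw [sq, Measure.restrict_apply_univ, Measure.volume_eq_prod, Measure.prod_prod, Real.volume_Icc]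
  simp

lemma sq_int (f g : ℝ → ℝ) :
    ∫ z, f z.1 * g z.2 ∂sq = (∫ x in Set.Icc (0:ℝ) 1, f x) * ∫ y in Set.Icc (0:ℝ) 1, g y := by
  unfold sq
  rw [Measure.volume_eq_prod]
  exact setIntegral_prod_mul f g _ _

lemma int_ico (a b c : ℝ) (ha : 0 ≤ a) (hab : a ≤ b) (hb : b ≤ 1) :
    ∫ x in Set.Icc (0:ℝ) 1, (if a ≤ x ∧ x < b then c else 0) = c * (b - a) := by
  have : (fun x : ℝ => if a ≤ x ∧ x < b then c else 0) = (Set.Ico a b).indicator (fun _ => c) := by
    ext x
    simp only [Set.indicator, Set.mem_Ico]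
  rw [this, setIntegral_indicator measurableSet_Ico]
  have : Set.Icc (0:ℝ) 1 ∩ Set.Ico a b = Set.Ico a b := by
    apply Set.inter_eq_self_of_subset_right
    intro x hx
    exact ⟨le_trans ha hx.1, le_trans hx.2.le hb⟩
  rw [this, setIntegral_const, smul_eq_mul]
  simp [hab, mul_comm]

noncomputable def AA (x : ℝ) : ℝ := if x < 1/2 then 1 else 0

lemma AA_meas : Measurable AA := by
  unfold AA
  exact Measurable.ite measurableSet_Iio measurable_const measurable_const

lemma AA_int : ∫ x in Set.Icc (0:ℝ) 1, AA x = 1/2 := by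
  have : ∀ x ∈ Set.Icc (0:ℝ) 1, AA x = if 0 ≤ x ∧ x < 1/2 then 1 else 0 := by
    intro x hx
    simp [AA, hx.1]
  rw [setIntegral_congr_fun measurableSet_Icc this, int_ico _ _ _ le_rfl (by norm_num) (by norm_num)]
  norm_num

lemma AA_sq (x : ℝ) : AA x * AA x = AA x := by
  unfold AA; split_ifs <;> simp

noncomputable def tt (s : ℕ) : ℝ := 1 - 1/2^(s+1)

lemma tt_mono : Monotone tt := by
  apply monotone_nat_of_le_succ
  intro s
  unfold tt
  gcongr
  · norm_num
  · omega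

lemma tt_le (s : ℕ) : tt s ≤ 1 := by
  unfold tt
  have : (0:ℝ) ≤ 1/2^(s+1) := by positivity
  linarith

lemma tt_ge (s : ℕ) : 1/2 ≤ tt s := by
  have := tt_mono (Nat.zero_le s)
  refine le_trans ?_ this
  unfold tt; norm_num

lemma tt_sub (s : ℕ) : tt (s+1) - tt s = 1/2^(s+2) := by
  unfold tt
  rw [pow_succ (2:ℝ) (s+1)]
  field_simp
  ring

noncomputable def BB (s : ℕ) (x : ℝ) : ℝ := if tt s ≤ x ∧ x < tt (s+1) then Real.sqrt (2^(s+2)) else 0

lemma BB_meas (s : ℕ) : Measurable (BB s) := by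
  unfold BB
  exact Measurable.ite measurableSet_Ico measurable_const measurable_const

lemma BB_mul_ne (s t : ℕ) (h : s ≠ t) (x : ℝ) : BB s x * BB t x = 0 := by
  have := Monotone.pairwise_disjoint_on_Ico_succ tt_mono h
  have h2 : ¬ (x ∈ Set.Ico (tt s) (tt (s+1)) ∧ x ∈ Set.Ico (tt t) (tt (t+1))) := by
    intro h'
    exact Set.disjoint_left.1 this h'.1 h'.2
  simp only [Set.mem_Ico] at h2
  unfold BB
  by_cases h3 : tt s ≤ x ∧ x < tt (s+1)
  · have : ¬ (tt t ≤ x ∧ x < tt (t+1)) := fun h4 => h2 ⟨h3, h4⟩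
    rw [if_neg this, mul_zero]
  · rw [if_neg h3, zero_mul]

lemma BB_int (s t : ℕ) : ∫ x in Set.Icc (0:ℝ) 1, BB s x * BB t x = if s = t then 1 else 0 := by
  by_cases h : s = t
  · subst h
    have : ∀ x, BB s x * BB s x = if tt s ≤ x ∧ x < tt (s+1) then (2:ℝ)^(s+2) else 0 := by
      intro x
      unfold BB
      split_ifs
      · exact Real.mul_self_sqrt (by positivity)
      · simp
    simp_rw [this]
    rw [int_ico _ _ _ (le_trans (by norm_num) (tt_ge s)) (tt_mono (Nat.le_succ s)) (tt_le _), tt_sub]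
    simp
  · simp_rw [BB_mul_ne s t h]
    simp [h]

lemma AA_mul_BB (s : ℕ) (x : ℝ) : AA x * BB s x = 0 := by
  unfold AA BB
  by_cases h : x < 1/2
  · have : ¬ (tt s ≤ x ∧ x < tt (s+1)) := by
      intro h'
      have := tt_ge s
      linarith [h'.1]
    rw [if_neg this, mul_zero]
  · rw [if_neg h, zero_mul]

/-- Haar type functions on the left half -/
noncomputable def haar (j u : ℕ) (z : ℝ × ℝ) : ℝ := AA z.1 * hy j u z.2
/-- normalised indicators on the right half -/
noncomputable def cell (s : ℕ) (z : ℝ × ℝ) : ℝ := BB s z.1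

lemma haar_meas (j u : ℕ) : Measurable (haar j u) := by
  unfold haar
  exact (AA_meas.comp measurable_fst).mul ((hy_meas j u).comp measurable_snd)

lemma cell_meas (s : ℕ) : Measurable (cell s) := (BB_meas s).comp measurable_fst

lemma haar_abs_le (j u : ℕ) (z : ℝ × ℝ) : |haar j u z| ≤ 1 := by
  unfold haar
  rw [abs_mul, hy_abs]
  unfold AA
  split_ifs <;> simp

lemma cell_abs_le (s : ℕ) (z : ℝ × ℝ) : |cell s z| ≤ Real.sqrt (2^(s+2)) := by
  unfold cell BB
  split_ifs
  · rw [abs_of_nonneg (Real.sqrt_nonneg _)]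
  · simp

lemma haar_memLp (j u : ℕ) : MemLp (haar j u) 2 sq :=
  MemLp.of_bound (haar_meas j u).aestronglyMeasurable 1 (ae_of_all _ (fun z => haar_abs_le j u z))

lemma cell_memLp (s : ℕ) : MemLp (cell s) 2 sq :=
  MemLp.of_bound (cell_meas s).aestronglyMeasurable _ (ae_of_all _ (fun z => cell_abs_le s z))

lemma haar_int (j u j' u' : ℕ) (hu : u < 2^j) :
    ∫ z, haar j u z * haar j' u' z ∂sq = if j = j' ∧ u = u' then ((2:ℝ)^(j+1))⁻¹ else 0 := by
  have : ∀ z : ℝ × ℝ, haar j u z * haar j' u' z = AA z.1 * (hy j u z.2 * hy j' u' z.2) := by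
    intro z
    unfold haar
    rw [← AA_sq z.1]
    have := AA_sq z.1
    calc AA z.1 * AA z.1 * hy j u z.2 * (AA z.1 * AA z.1 * hy j' u' z.2)
        = (AA z.1 * AA z.1) * (AA z.1 * AA z.1) * (hy j u z.2 * hy j' u' z.2) := by ring
      _ = AA z.1 * AA z.1 * (hy j u z.2 * hy j' u' z.2) := by rw [this, this]
  rw [integral_congr_ae (ae_of_all _ this),
    sq_int AA (fun y => hy j u y * hy j' u' y), AA_int, hy_int j u j' u' hu]
  split_ifs
  · rw [pow_succ]; field_simp
  · simp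

lemma cell_int (s t : ℕ) : ∫ z, cell s z * cell t z ∂sq = if s = t then 1 else 0 := by
  have : ∀ z : ℝ × ℝ, cell s z * cell t z = (fun x => BB s x * BB t x) z.1 * (fun _ => (1:ℝ)) z.2 := by
    intro z
    simp [cell]
  rw [integral_congr_ae (ae_of_all _ this), sq_int (fun x => BB s x * BB t x) (fun _ => (1:ℝ)), BB_int]
  simp

lemma haar_mul_cell (j u s : ℕ) (z : ℝ × ℝ) : haar j u z * cell s z = 0 := by
  unfold haar cell
  have := AA_mul_BB s z.1
  calc AA z.1 * hy j u z.2 * BB s z.1 = (AA z.1 * BB s z.1) * hy j u z.2 := by ring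
    _ = 0 := by rw [this, zero_mul]

/-- first digit used by row q -/
def sD (q : ℕ) : ℕ := ∑ i ∈ Finset.range q, 4^i
/-- digits used by row q -/
def DD (q : ℕ) : Finset ℕ := Finset.Ico (sD q) (sD (q+1))
/-- the group of row q -/
def grp (q : ℕ) : ℕ := Nat.log 2 (q+1)
/-- number of digits of group g -/
def TT (g : ℕ) : ℕ := sD (2^(g+1) - 1)
/-- first column of the block of group g -/
def NN (g : ℕ) : ℕ := ∑ h ∈ Finset.range g, 2^(TT h)

lemma sD_mono : Monotone sD := by
  apply monotone_nat_of_le_succ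
  intro q
  unfold sD
  rw [Finset.sum_range_succ]
  exact Nat.le_add_right _ _

lemma DD_card (q : ℕ) : (DD q).card = 4^q := by
  unfold DD
  rw [Nat.card_Ico]
  unfold sD
  rw [Finset.sum_range_succ]
  simp

lemma DD_disj (q r a : ℕ) (h1 : a ∈ DD q) (h2 : a ∈ DD r) : q = r := by
  unfold DD at h1 h2
  rw [Finset.mem_Ico] at h1 h2
  rcases lt_trichotomy q r with h | h | h
  · have := sD_mono (show q + 1 ≤ r from h)
    omega
  · exact h
  · have := sD_mono (show r + 1 ≤ q from h)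
    omega

lemma lt_TT (q a : ℕ) (h1 : a ∈ DD q) : a < TT (grp q) := by
  unfold DD at h1
  rw [Finset.mem_Ico] at h1
  refine lt_of_lt_of_le h1.2 ?_
  unfold TT
  apply sD_mono
  have : q + 1 < 2^(grp q + 1) := Nat.lt_pow_succ_log_self (by norm_num) _
  omega

abbrev Ix := (ℕ × ℕ × ℕ) ⊕ (ℕ × ℕ)
def enc (t : Ix) : ℕ := Encodable.encode t
lemma enc_inj (s t : Ix) : enc s = enc t ↔ s = t := Encodable.encode_inj

noncomputable def cM (i j : ℕ) : ℝ :=
  Real.sqrt (2^(TT (grp i) + 1)) * ((2:ℝ)^i)⁻¹ * ((2:ℝ)^(TT (grp i) - j))⁻¹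

noncomputable def cE (i k : ℕ) (p : ℕ × ℕ) : ℝ :=
  ((2:ℝ)^i)⁻¹ * ((if k = p.2 then 1 else 0) - PP (TT (grp i) - p.1) k p.2)

noncomputable def mainF (i k : ℕ) (z : ℝ × ℝ) : ℝ :=
  ∑ j ∈ DD i, cM i j * haar j (k / 2^(TT (grp i) - j)) z

noncomputable def extraF (i k : ℕ) (z : ℝ × ℝ) : ℝ :=
  ∑ p ∈ DD i ×ˢ Finset.range (2^(TT (grp i))), cE i k p * cell (enc (Sum.inl (i, p.1, p.2))) z

def inB (i k : ℕ) : Prop := NN (grp i) ≤ k ∧ k < NN (grp i) + 2^(TT (grp i))

open Classical in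
noncomputable def phi (i k : ℕ) (z : ℝ × ℝ) : ℝ :=
  if inB i k then mainF i (k - NN (grp i)) z + extraF i (k - NN (grp i)) z
  else cell (enc (Sum.inr (i, k))) z

lemma int_sum_mul_sum {α β : Type} (s : Finset α) (t : Finset β) (f : α → ℝ × ℝ → ℝ)
    (g : β → ℝ × ℝ → ℝ) (hf : ∀ a, MemLp (f a) 2 sq) (hg : ∀ b, MemLp (g b) 2 sq) :
    ∫ z, (∑ a ∈ s, f a z) * (∑ b ∈ t, g b z) ∂sq = ∑ a ∈ s, ∑ b ∈ t, ∫ z, f a z * g b z ∂sq := by
  have h1 : ∀ a b, Integrable (fun z => f a z * g b z) sq := fun a b => (hf a).integrable_mul (hg b)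
  simp_rw [Finset.sum_mul_sum]
  rw [integral_finsetSum _ (fun a _ => integrable_finsetSum _ (fun b _ => h1 a b))]
  apply Finset.sum_congr rfl
  intro a _
  rw [integral_finsetSum _ (fun b _ => h1 a b)]

lemma mainF_memLp (i k : ℕ) : MemLp (mainF i k) 2 sq :=
  memLp_finsetSum _ (fun _ _ => (haar_memLp _ _).const_mul _)

lemma extraF_memLp (i k : ℕ) : MemLp (extraF i k) 2 sq :=
  memLp_finsetSum _ (fun _ _ => (cell_memLp _).const_mul _)

lemma phi_memLp (i k : ℕ) : MemLp (phi i k) 2 sq := by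
  classical
  by_cases h : inB i k
  · have : phi i k = fun z => mainF i (k - NN (grp i)) z + extraF i (k - NN (grp i)) z := by
      ext z; simp [phi, h]
    rw [this]
    exact (mainF_memLp _ _).add (extraF_memLp _ _)
  · have : phi i k = cell (enc (Sum.inr (i, k))) := by
      ext z; simp [phi, h]
    rw [this]
    exact cell_memLp _

lemma main_mul_cell (i k s : ℕ) (z : ℝ × ℝ) : mainF i k z * cell s z = 0 := by
  unfold mainF
  rw [Finset.sum_mul]
  apply Finset.sum_eq_zero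
  intro j _
  rw [mul_assoc, haar_mul_cell, mul_zero]

lemma main_mul_extra (i k j l : ℕ) (z : ℝ × ℝ) : mainF i k z * extraF j l z = 0 := by
  unfold extraF
  rw [Finset.mul_sum]
  apply Finset.sum_eq_zero
  intro p _
  rw [mul_left_comm, main_mul_cell, mul_zero]

lemma main_int_ne (i k j l : ℕ) (hk : k < 2^(TT (grp i))) (h : i ≠ j) :
    ∫ z, mainF i k z * mainF j l z ∂sq = 0 := by
  unfold mainF
  rw [int_sum_mul_sum _ _ _ _ (fun a => (haar_memLp a _).const_mul _)
    (fun a => (haar_memLp a _).const_mul _)]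
  apply Finset.sum_eq_zero
  intro a ha
  apply Finset.sum_eq_zero
  intro b hb
  have hab : a ≠ b := by
    intro e
    subst e
    exact h (DD_disj i j a ha hb)
  have : ∀ z, cM i a * haar a (k / 2^(TT (grp i) - a)) z * (cM j b * haar b (l / 2^(TT (grp j) - b)) z)
      = (cM i a * cM j b) * (haar a (k / 2^(TT (grp i) - a)) z * haar b (l / 2^(TT (grp j) - b)) z) := by
    intro z; ring
  simp_rw [this]
  rw [integral_const_mul, haar_int, if_neg (fun hh => hab hh.1), mul_zero]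
  have haT := lt_TT i a ha
  rw [Nat.div_lt_iff_lt_mul (by positivity), ← pow_add]
  have : a + (TT (grp i) - a) = TT (grp i) := by omega
  rw [this]; exact hk

lemma main_int_eq (i k l : ℕ) (hk : k < 2^(TT (grp i))) :
    ∫ z, mainF i k z * mainF i l z ∂sq = ((4:ℝ)^i)⁻¹ * ∑ a ∈ DD i, PP (TT (grp i) - a) k l := by
  unfold mainF
  rw [int_sum_mul_sum _ _ _ _ (fun a => (haar_memLp a _).const_mul _)
    (fun a => (haar_memLp a _).const_mul _), Finset.mul_sum]
  apply Finset.sum_congr rfl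
  intro a ha
  have haT := lt_TT i a ha
  have hu : k / 2^(TT (grp i) - a) < 2^a := by
    rw [Nat.div_lt_iff_lt_mul (by positivity), ← pow_add]
    have : a + (TT (grp i) - a) = TT (grp i) := by omega
    rw [this]; exact hk
  have key : ∀ b, ∫ z, cM i a * haar a (k / 2^(TT (grp i) - a)) z *
      (cM i b * haar b (l / 2^(TT (grp i) - b)) z) ∂sq =
      (cM i a * cM i b) * (if a = b ∧ k / 2^(TT (grp i) - a) = l / 2^(TT (grp i) - b)
        then ((2:ℝ)^(a+1))⁻¹ else 0) := by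
    intro b
    have : ∀ z, cM i a * haar a (k / 2^(TT (grp i) - a)) z * (cM i b * haar b (l / 2^(TT (grp i) - b)) z)
      = (cM i a * cM i b) * (haar a (k / 2^(TT (grp i) - a)) z * haar b (l / 2^(TT (grp i) - b)) z) := by
      intro z; ring
    simp_rw [this]
    rw [integral_const_mul, haar_int _ _ _ _ hu]
  simp_rw [key]
  rw [Finset.sum_eq_single a]
  · unfold PP
    simp only [true_and]
    split_ifs
    · unfold cM
      have hs : Real.sqrt (2^(TT (grp i) + 1)) * Real.sqrt (2^(TT (grp i) + 1)) = 2^(TT (grp i) + 1) :=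
        Real.mul_self_sqrt (by positivity)
      have e1 : (2:ℝ)^(TT (grp i) + 1) = 2^(TT (grp i) - a) * 2^(a+1) := by
        rw [← pow_add]; congr 1; omega
      have e2 : (4:ℝ)^i = 2^i * 2^i := by rw [← mul_pow]; norm_num
      have : Real.sqrt (2^(TT (grp i) + 1)) * ((2:ℝ)^i)⁻¹ * ((2:ℝ)^(TT (grp i) - a))⁻¹ *
          (Real.sqrt (2^(TT (grp i) + 1)) * ((2:ℝ)^i)⁻¹ * ((2:ℝ)^(TT (grp i) - a))⁻¹) * ((2:ℝ)^(a+1))⁻¹ =
          (Real.sqrt (2^(TT (grp i) + 1)) * Real.sqrt (2^(TT (grp i) + 1))) * (((2:ℝ)^i)⁻¹ * ((2:ℝ)^i)⁻¹)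
          * ((2:ℝ)^(TT (grp i) - a))⁻¹ * ((2:ℝ)^(TT (grp i) - a))⁻¹ * ((2:ℝ)^(a+1))⁻¹ := by ring
      rw [this, hs, e1, e2]
      field_simp
    · simp
  · intro b _ hb
    rw [if_neg (fun hh => hb hh.1.symm), mul_zero]
  · intro h; exact absurd ha h

lemma extra_int (i k j l : ℕ) :
    ∫ z, extraF i k z * extraF j l z ∂sq = if i = j then
      ∑ p ∈ DD i ×ˢ Finset.range (2^(TT (grp i))), cE i k p * cE i l p else 0 := by
  unfold extraF
  rw [int_sum_mul_sum _ _ _ _ (fun a => (cell_memLp _).const_mul _)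
    (fun a => (cell_memLp _).const_mul _)]
  have key : ∀ p q : ℕ × ℕ, ∫ z, cE i k p * cell (enc (Sum.inl (i, p.1, p.2))) z *
      (cE j l q * cell (enc (Sum.inl (j, q.1, q.2))) z) ∂sq =
      if i = j ∧ p = q then cE i k p * cE j l q else 0 := by
    intro p q
    have : ∀ z, cE i k p * cell (enc (Sum.inl (i, p.1, p.2))) z *
      (cE j l q * cell (enc (Sum.inl (j, q.1, q.2))) z) = (cE i k p * cE j l q) *
       (cell (enc (Sum.inl (i, p.1, p.2))) z * cell (enc (Sum.inl (j, q.1, q.2))) z) := by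
      intro z; ring
    simp_rw [this]
    rw [integral_const_mul, cell_int]
    simp only [enc_inj]
    have : (Sum.inl (i, p.1, p.2) : Ix) = Sum.inl (j, q.1, q.2) ↔ i = j ∧ p = q := by
      constructor
      · intro h
        simp only [Sum.inl.injEq, Prod.mk.injEq] at h
        exact ⟨h.1, Prod.ext h.2.1 h.2.2⟩
      · rintro ⟨rfl, rfl⟩; rfl
    simp only [this]
    split_ifs <;> simp
  simp_rw [key]
  split_ifs with h
  · subst h
    apply Finset.sum_congr rfl
    intro p hp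
    simp [hp]
  · simp [h]

lemma extra_sum (i k l : ℕ) (hk : k < 2^(TT (grp i))) (hl : l < 2^(TT (grp i))) :
    ∑ p ∈ DD i ×ˢ Finset.range (2^(TT (grp i))), cE i k p * cE i l p =
      (if k = l then 1 else 0) - ((4:ℝ)^i)⁻¹ * ∑ a ∈ DD i, PP (TT (grp i) - a) k l := by
  rw [Finset.sum_product]
  have e2 : (4:ℝ)^i = 2^i * 2^i := by rw [← mul_pow]; norm_num
  have key : ∀ a ∈ DD i, ∑ m ∈ Finset.range (2^(TT (grp i))), cE i k (a, m) * cE i l (a, m) =
      ((4:ℝ)^i)⁻¹ * ((if k = l then 1 else 0) - PP (TT (grp i) - a) k l) := by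
    intro a ha
    have haT := lt_TT i a ha
    have : ∀ m, cE i k (a, m) * cE i l (a, m) = ((4:ℝ)^i)⁻¹ *
        ((if k = m then (if l = m then 1 else 0) else 0)
        - (if k = m then PP (TT (grp i) - a) l m else 0)
        - (if l = m then PP (TT (grp i) - a) k m else 0)
        + PP (TT (grp i) - a) k m * PP (TT (grp i) - a) l m) := by
      intro m
      unfold cE
      simp only
      rw [e2, mul_inv]
      split_ifs <;> ring
    simp_rw [this]
    rw [← Finset.mul_sum]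
    congr 1
    rw [Finset.sum_add_distrib, Finset.sum_sub_distrib, Finset.sum_sub_distrib,
      PP_mul_sum (TT (grp i)) _ k l (by omega) hk]
    simp only [Finset.sum_ite_eq, Finset.mem_range, hk, hl, if_true]
    rw [PP_comm _ l k]
    have : (if l = k then (1:ℝ) else 0) = if k = l then 1 else 0 := by simp only [eq_comm]
    rw [this]
    ring
  rw [Finset.sum_congr rfl key, ← Finset.mul_sum, Finset.sum_sub_distrib, Finset.sum_const, DD_card,
    nsmul_eq_mul]
  push_cast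
  field_simp

lemma extra_cell_int (i k j l : ℕ) :
    ∫ z, extraF i k z * cell (enc (Sum.inr (j, l))) z ∂sq = 0 := by
  unfold extraF
  simp_rw [Finset.sum_mul]
  have h1 : ∀ p : ℕ × ℕ, Integrable (fun z => cE i k p * cell (enc (Sum.inl (i, p.1, p.2))) z *
      cell (enc (Sum.inr (j, l))) z) sq :=
    fun p => ((cell_memLp _).const_mul _).integrable_mul (cell_memLp _)
  rw [integral_finsetSum _ (fun p _ => h1 p)]
  apply Finset.sum_eq_zero
  intro p _
  simp_rw [mul_assoc]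
  rw [integral_const_mul, cell_int, if_neg, mul_zero]
  rw [enc_inj]; simp

lemma phi_int (i k j l : ℕ) :
    ∫ z, phi i k z * phi j l z ∂sq = if i = j ∧ k = l then 1 else 0 := by
  classical
  by_cases h1 : inB i k <;> by_cases h2 : inB j l
  · have e : ∀ z, phi i k z * phi j l z = mainF i (k - NN (grp i)) z * mainF j (l - NN (grp j)) z +
        extraF i (k - NN (grp i)) z * extraF j (l - NN (grp j)) z := by
      intro z
      simp only [phi, h1, h2, if_true]
      have a1 := main_mul_extra i (k - NN (grp i)) j (l - NN (grp j)) z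
      have a2 := main_mul_extra j (l - NN (grp j)) i (k - NN (grp i)) z
      linear_combination a1 + a2
    have i1 : Integrable (fun z => mainF i (k - NN (grp i)) z * mainF j (l - NN (grp j)) z) sq :=
      (mainF_memLp _ _).integrable_mul (mainF_memLp _ _)
    have i2 : Integrable (fun z => extraF i (k - NN (grp i)) z * extraF j (l - NN (grp j)) z) sq :=
      (extraF_memLp _ _).integrable_mul (extraF_memLp _ _)
    rw [integral_congr_ae (ae_of_all _ e), integral_add i1 i2, extra_int]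
    have hk : k - NN (grp i) < 2^(TT (grp i)) := by
      have := h1.2; have := h1.1; omega
    by_cases hij : i = j
    · subst hij
      have hl : l - NN (grp i) < 2^(TT (grp i)) := by
        have := h2.2; have := h2.1; omega
      rw [if_pos rfl, main_int_eq i _ _ hk, extra_sum i _ _ hk hl]
      have : (k - NN (grp i) = l - NN (grp i)) ↔ k = l := by
        have := h1.1; have := h2.1; omega
      simp [this]
    · rw [if_neg hij, main_int_ne i _ j _ hk hij, if_neg (fun hh => hij hh.1)]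
      simp
  · have e : ∀ z, phi i k z * phi j l z =
        extraF i (k - NN (grp i)) z * cell (enc (Sum.inr (j, l))) z := by
      intro z
      simp only [phi, h1, h2, if_true, if_false]
      have a1 := main_mul_cell i (k - NN (grp i)) (enc (Sum.inr (j, l))) z
      linear_combination a1
    rw [integral_congr_ae (ae_of_all _ e), if_neg (by rintro ⟨rfl, rfl⟩; exact h2 h1)]
    exact extra_cell_int _ _ _ _
  · have e : ∀ z, phi i k z * phi j l z =
        extraF j (l - NN (grp j)) z * cell (enc (Sum.inr (i, k))) z := by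
      intro z
      simp only [phi, h1, h2, if_true, if_false]
      have a1 := main_mul_cell j (l - NN (grp j)) (enc (Sum.inr (i, k))) z
      linear_combination a1
    rw [integral_congr_ae (ae_of_all _ e), if_neg (by rintro ⟨rfl, rfl⟩; exact h1 h2)]
    exact extra_cell_int _ _ _ _
  · have e : ∀ z, phi i k z * phi j l z =
        cell (enc (Sum.inr (i, k))) z * cell (enc (Sum.inr (j, l))) z := by
      intro z
      simp only [phi, h1, h2, if_false]
    rw [integral_congr_ae (ae_of_all _ e), cell_int]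
    simp only [enc_inj, Sum.inr.injEq, Prod.mk.injEq]

lemma cell_unique (s t : ℕ) (z : ℝ × ℝ) (h1 : cell s z ≠ 0) (h2 : cell t z ≠ 0) : s = t := by
  by_contra h
  have := BB_mul_ne s t h z.1
  exact (mul_ne_zero h1 h2) this

lemma cell_zero_of_left (s : ℕ) (z : ℝ × ℝ) (h : z.1 < 1/2) : cell s z = 0 := by
  unfold cell BB
  rw [if_neg]
  intro h'
  have := tt_ge s
  linarith [h'.1]

lemma mainF_zero_of_right (i k : ℕ) (z : ℝ × ℝ) (h : ¬ z.1 < 1/2) : mainF i k z = 0 := by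
  unfold mainF haar AA
  simp only [if_neg h, zero_mul, mul_zero, Finset.sum_const_zero]

lemma extraF_zero_of_left (i k : ℕ) (z : ℝ × ℝ) (h : z.1 < 1/2) : extraF i k z = 0 := by
  unfold extraF
  simp [cell_zero_of_left _ z h]

lemma right_finite (z : ℝ × ℝ) (h : ¬ z.1 < 1/2) :
    ∃ W : Finset (ℕ × ℕ), ∀ i k, (i, k) ∉ W → phi i k z = 0 := by
  classical
  by_cases hs : ∃ t : Ix, cell (enc t) z ≠ 0
  · obtain ⟨t, ht⟩ := hs
    have huniq : ∀ t' : Ix, t' ≠ t → cell (enc t') z = 0 := by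
      intro t' hne
      by_contra hc
      exact hne ((enc_inj _ _).1 (cell_unique _ _ z hc ht))
    rcases t with ⟨q, j, m⟩ | ⟨q, l⟩
    · refine ⟨{q} ×ˢ Finset.Ico (NN (grp q)) (NN (grp q) + 2^(TT (grp q))), ?_⟩
      intro i k hik
      unfold phi
      split_ifs with hb
      · rw [mainF_zero_of_right _ _ z h, zero_add]
        unfold extraF
        apply Finset.sum_eq_zero
        intro p _
        rw [huniq, mul_zero]
        intro he
        simp only [Sum.inl.injEq, Prod.mk.injEq] at he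
        apply hik
        obtain ⟨he1, _⟩ := he
        subst he1
        simp only [Finset.mem_product, Finset.mem_singleton, Finset.mem_Ico, true_and]
        exact hb
      · exact huniq _ (by simp)
    · refine ⟨{(q, l)}, ?_⟩
      intro i k hik
      unfold phi
      split_ifs with hb
      · rw [mainF_zero_of_right _ _ z h, zero_add]
        unfold extraF
        apply Finset.sum_eq_zero
        intro p _
        rw [huniq _ (by simp), mul_zero]
      · apply huniq
        intro he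
        apply hik
        simpa using he
  · push Not at hs
    refine ⟨∅, ?_⟩
    intro i k _
    unfold phi
    split_ifs with hb
    · rw [mainF_zero_of_right _ _ z h, zero_add]
      unfold extraF
      apply Finset.sum_eq_zero
      intro p _
      rw [hs, mul_zero]
    · exact hs _

noncomputable def Sint (a : ℕ → ℕ → ℝ) (m n : ℕ) (z : ℝ × ℝ) : ℝ :=
  ∑ i ∈ Finset.range m, ∑ k ∈ Finset.range n, a i k * phi i k z

lemma right_bound (a : ℕ → ℕ → ℝ) (z : ℝ × ℝ) (h : ¬ z.1 < 1/2) :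
    ∃ C, 0 ≤ C ∧ ∀ m n, |Sint a m n z| ≤ C := by
  obtain ⟨W, hW⟩ := right_finite z h
  refine ⟨∑ p ∈ W, |a p.1 p.2 * phi p.1 p.2 z|, Finset.sum_nonneg (fun _ _ => abs_nonneg _), ?_⟩
  intro m n
  unfold Sint
  rw [← Finset.sum_product']
  refine (Finset.abs_sum_le_sum_abs _ _).trans ?_
  have : ∑ p ∈ Finset.range m ×ˢ Finset.range n, |a p.1 p.2 * phi p.1 p.2 z| =
      ∑ p ∈ (Finset.range m ×ˢ Finset.range n).filter (fun p => p ∈ W), |a p.1 p.2 * phi p.1 p.2 z| := by
    rw [Finset.sum_filter_of_ne]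
    intro p _ hp
    by_contra hc
    apply hp
    rw [hW p.1 p.2 hc]; simp
  rw [this]
  apply Finset.sum_le_sum_of_subset_of_nonneg
  · intro p hp
    exact (Finset.mem_filter.1 hp).2
  · intro p _ _
    exact abs_nonneg _

/-- majorant for row i on the left half, as a function of the level-T cell index -/
noncomputable def GG (i : ℕ) (b : ℕ → ℝ) (w : ℕ) : ℝ :=
  Real.sqrt (2^(TT (grp i) + 1)) * ((2:ℝ)^i)⁻¹ *
    ∑ j ∈ DD i, ∑ k ∈ Finset.range (2^(TT (grp i))), |b k| * PP (TT (grp i) - j) k w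

lemma GG_nonneg (i : ℕ) (b : ℕ → ℝ) (w : ℕ) : 0 ≤ GG i b w := by
  unfold GG
  refine mul_nonneg (by positivity) (Finset.sum_nonneg (fun j _ => Finset.sum_nonneg (fun k _ => ?_)))
  exact mul_nonneg (abs_nonneg _) (PP_nonneg _ _ _)

lemma mainF_abs_le (i k : ℕ) (z : ℝ × ℝ) (h : z.1 < 1/2) :
    |mainF i k z| ≤ Real.sqrt (2^(TT (grp i) + 1)) * ((2:ℝ)^i)⁻¹ *
      ∑ j ∈ DD i, PP (TT (grp i) - j) k (fl (TT (grp i)) z.2) := by
  unfold mainF
  refine (Finset.abs_sum_le_sum_abs _ _).trans ?_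
  rw [Finset.mul_sum]
  apply Finset.sum_le_sum
  intro j hj
  have hjT := lt_TT i j hj
  rw [abs_mul, abs_of_nonneg (show 0 ≤ cM i j by unfold cM; positivity)]
  unfold haar AA
  rw [if_pos h, one_mul, hy_abs]
  unfold PP cM
  rw [fl_div' j (TT (grp i)) hjT.le]
  simp only [eq_comm]
  split_ifs
  · simp
  · simp

lemma E_sq (T n : ℕ) (hn : n ≤ T) (b : ℕ → ℝ) :
    ∑ w ∈ Finset.range (2^T), (∑ k ∈ Finset.range (2^T), |b k| * PP n k w)^2 ≤
      ∑ k ∈ Finset.range (2^T), (b k)^2 := by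
  have h1 : ∀ w ∈ Finset.range (2^T), (∑ k ∈ Finset.range (2^T), |b k| * PP n k w)^2 ≤
      ∑ k ∈ Finset.range (2^T), (b k)^2 * PP n k w := by
    intro w hw
    have hs : ∀ k, Real.sqrt (PP n k w) * Real.sqrt (PP n k w) = PP n k w :=
      fun k => Real.mul_self_sqrt (PP_nonneg _ _ _)
    have := Finset.sum_mul_sq_le_sq_mul_sq (Finset.range (2^T))
      (fun k => |b k| * Real.sqrt (PP n k w)) (fun k => Real.sqrt (PP n k w))
    have e1 : ∀ k, |b k| * Real.sqrt (PP n k w) * Real.sqrt (PP n k w) = |b k| * PP n k w := by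
      intro k; rw [mul_assoc, hs]
    have e2 : ∀ k, (|b k| * Real.sqrt (PP n k w))^2 = (b k)^2 * PP n k w := by
      intro k
      rw [mul_pow, sq_abs, Real.sq_sqrt (PP_nonneg _ _ _)]
    have e3 : ∀ k, (Real.sqrt (PP n k w))^2 = PP n w k := by
      intro k
      rw [Real.sq_sqrt (PP_nonneg _ _ _), PP_comm]
    simp_rw [e1, e2, e3] at this
    rw [PP_sum T n w hn (Finset.mem_range.1 hw), mul_one] at this
    exact this
  refine (Finset.sum_le_sum h1).trans ?_
  rw [Finset.sum_comm]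
  apply le_of_eq
  apply Finset.sum_congr rfl
  intro k hk
  rw [← Finset.mul_sum, PP_sum T n k hn (Finset.mem_range.1 hk), mul_one]

lemma GG_sq (i : ℕ) (b : ℕ → ℝ) :
    ∑ w ∈ Finset.range (2^(TT (grp i))), (GG i b w)^2 ≤
      2^(TT (grp i) + 1) * 4^i * ∑ k ∈ Finset.range (2^(TT (grp i))), (b k)^2 := by
  have e4 : (4:ℝ)^i = 2^i * 2^i := by rw [← mul_pow]; norm_num
  have h1 : ∀ w, (GG i b w)^2 ≤ 2^(TT (grp i) + 1) *
      ∑ j ∈ DD i, (∑ k ∈ Finset.range (2^(TT (grp i))), |b k| * PP (TT (grp i) - j) k w)^2 := by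
    intro w
    unfold GG
    rw [mul_pow, mul_pow, Real.sq_sqrt (by positivity)]
    have := sq_sum_le_card_mul_sum_sq (s := DD i)
      (f := fun j => ∑ k ∈ Finset.range (2^(TT (grp i))), |b k| * PP (TT (grp i) - j) k w)
    rw [DD_card] at this
    push_cast at this
    calc _ ≤ 2^(TT (grp i) + 1) * (((2:ℝ)^i)⁻¹)^2 * (4^i * ∑ j ∈ DD i,
          (∑ k ∈ Finset.range (2^(TT (grp i))), |b k| * PP (TT (grp i) - j) k w)^2) := by gcongr
      _ = _ := by rw [e4]; field_simp
  refine (Finset.sum_le_sum (fun w _ => h1 w)).trans ?_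
  rw [← Finset.mul_sum, Finset.sum_comm, mul_assoc]
  gcongr
  calc ∑ j ∈ DD i, ∑ w ∈ Finset.range (2^(TT (grp i))),
        (∑ k ∈ Finset.range (2^(TT (grp i))), |b k| * PP (TT (grp i) - j) k w)^2
      ≤ ∑ j ∈ DD i, ∑ k ∈ Finset.range (2^(TT (grp i))), (b k)^2 := by
        apply Finset.sum_le_sum
        intro j _
        exact E_sq _ _ (by omega) b
    _ = _ := by rw [Finset.sum_const, DD_card, nsmul_eq_mul]; push_cast; ring

noncomputable def QQ (a : ℕ → ℕ → ℝ) (i : ℕ) (z : ℝ × ℝ) : ℝ :=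
  AA z.1 * GG i (fun k => a i (NN (grp i) + k)) (fl (TT (grp i)) z.2)

lemma QQ_nonneg (a : ℕ → ℕ → ℝ) (i : ℕ) (z : ℝ × ℝ) : 0 ≤ QQ a i z := by
  unfold QQ AA
  split_ifs
  · rw [one_mul]; exact GG_nonneg _ _ _
  · simp

lemma QQ_meas (a : ℕ → ℕ → ℝ) (i : ℕ) : Measurable (QQ a i) := by
  unfold QQ
  refine (AA_meas.comp measurable_fst).mul ?_
  exact (measurable_of_countable (GG i (fun k => a i (NN (grp i) + k)))).comp
    ((fl_meas _).comp measurable_snd)

lemma QQ_int (a : ℕ → ℕ → ℝ) (i : ℕ) :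
    ∫ z, (QQ a i z)^2 ∂sq ≤ 4^i * ∑ k ∈ Finset.Ico (NN (grp i)) (NN (grp i) + 2^(TT (grp i))), (a i k)^2 := by
  have e : ∀ z : ℝ × ℝ, (QQ a i z)^2 = AA z.1 *
      (fun y => (fun w => (GG i (fun k => a i (NN (grp i) + k)) w)^2) (fl (TT (grp i)) y)) z.2 := by
    intro z
    unfold QQ
    simp only
    rw [mul_pow, pow_two (AA z.1), AA_sq]
  rw [integral_congr_ae (ae_of_all _ e), sq_int AA
    (fun y => (fun w => (GG i (fun k => a i (NN (grp i) + k)) w)^2) (fl (TT (grp i)) y)), AA_int,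
    int_fl (TT (grp i)) (fun w => (GG i (fun k => a i (NN (grp i) + k)) w)^2)]
  have h := GG_sq i (fun k => a i (NN (grp i) + k))
  rw [Finset.sum_Ico_eq_sum_range]
  simp only [Nat.add_sub_cancel_left]
  calc (1/2 : ℝ) * (((2:ℝ)^(TT (grp i)))⁻¹ * ∑ v ∈ Finset.range (2^(TT (grp i))),
        (GG i (fun k => a i (NN (grp i) + k)) v)^2)
      ≤ (1/2 : ℝ) * (((2:ℝ)^(TT (grp i)))⁻¹ * (2^(TT (grp i) + 1) * 4^i *
        ∑ k ∈ Finset.range (2^(TT (grp i))), (a i (NN (grp i) + k))^2)) := by gcongr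
    _ = _ := by rw [pow_succ]; field_simp

lemma QQ_integrable (a : ℕ → ℕ → ℝ) (i : ℕ) : Integrable (fun z => (QQ a i z)^2) sq := by
  have : ∃ C, ∀ z ∈ Set.Icc (0:ℝ) 1 ×ˢ Set.Icc (0:ℝ) 1, |QQ a i z| ≤ C := by
    refine ⟨∑ w ∈ Finset.range (2^(TT (grp i)) + 1), GG i (fun k => a i (NN (grp i) + k)) w, ?_⟩
    intro z hz
    have h2 := hz.2
    have hfl : fl (TT (grp i)) z.2 ≤ 2^(TT (grp i)) := by
      unfold fl
      apply Nat.floor_le_of_le
      push_cast
      have h3 : z.2 ≤ 1 := h2.2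
      have h4 : (0:ℝ) < 2^(TT (grp i)) := by positivity
      nlinarith
    rw [abs_of_nonneg (QQ_nonneg _ _ _)]
    have h1 : QQ a i z ≤ GG i (fun k => a i (NN (grp i) + k)) (fl (TT (grp i)) z.2) := by
      unfold QQ AA
      split_ifs
      · rw [one_mul]
      · rw [zero_mul]; exact GG_nonneg _ _ _
    refine h1.trans ?_
    exact Finset.single_le_sum (f := fun w => GG i (fun k => a i (NN (grp i) + k)) w)
      (fun w _ => GG_nonneg _ _ _) (Finset.mem_range.2 (by omega))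
  obtain ⟨C, hC⟩ := this
  refine Integrable.of_bound ((QQ_meas a i).pow_const 2).aestronglyMeasurable (C^2) ?_
  unfold sq
  rw [ae_restrict_iff' (measurableSet_Icc.prod measurableSet_Icc)]
  refine ae_of_all _ (fun z hz => ?_)
  have h := hC z hz
  rw [Real.norm_eq_abs, abs_pow]
  gcongr

lemma row_bound (a : ℕ → ℕ → ℝ) (i n : ℕ) (z : ℝ × ℝ) (h : z.1 < 1/2) :
    |∑ k ∈ Finset.range n, a i k * phi i k z| ≤ QQ a i z := by
  classical
  have h1 : ∀ k, a i k * phi i k z = if inB i k then a i k * mainF i (k - NN (grp i)) z else 0 := by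
    intro k
    unfold phi
    split_ifs
    · rw [extraF_zero_of_left _ _ z h, add_zero]
    · rw [cell_zero_of_left _ z h, mul_zero]
  refine (Finset.abs_sum_le_sum_abs _ _).trans ?_
  have h2 : ∀ k, |a i k * phi i k z| = if inB i k then |a i k| * |mainF i (k - NN (grp i)) z| else 0 := by
    intro k
    rw [h1]
    split_ifs
    · rw [abs_mul]
    · simp
  simp_rw [h2]
  rw [← Finset.sum_filter]
  have h3 : ∑ k ∈ (Finset.range n).filter (fun k => inB i k), |a i k| * |mainF i (k - NN (grp i)) z| ≤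
      ∑ k ∈ Finset.Ico (NN (grp i)) (NN (grp i) + 2^(TT (grp i))), |a i k| * |mainF i (k - NN (grp i)) z| := by
    apply Finset.sum_le_sum_of_subset_of_nonneg
    · intro k hk
      rw [Finset.mem_filter] at hk
      rw [Finset.mem_Ico]
      exact hk.2
    · intro k _ _; positivity
  refine h3.trans ?_
  rw [Finset.sum_Ico_eq_sum_range]
  simp only [Nat.add_sub_cancel_left]
  unfold QQ AA GG
  rw [if_pos h, one_mul, Finset.sum_comm, Finset.mul_sum]
  apply Finset.sum_le_sum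
  intro k _
  refine (mul_le_mul_of_nonneg_left (mainF_abs_le i k z h) (abs_nonneg _)).trans ?_
  rw [← Finset.mul_sum]
  apply le_of_eq
  ring

lemma growth (a : ℕ → ℕ → ℝ) (ha : Summable (fun p : ℕ × ℕ => (a p.1 p.2)^2)) :
    ∀ᵐ z ∂sq, ∃ C, 0 ≤ C ∧ ∀ m n, |Sint a (m+1) n z| ≤ C * 2^m := by
  have hrow : Summable (fun i => ∑ k ∈ Finset.Ico (NN (grp i)) (NN (grp i) + 2^(TT (grp i))), (a i k)^2) := by
    have h1 := (summable_prod_of_nonneg (fun p => sq_nonneg _)).1 ha
    refine Summable.of_nonneg_of_le (fun i => Finset.sum_nonneg (fun k _ => sq_nonneg _)) (fun i => ?_) h1.2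
    exact (h1.1 i).sum_le_tsum _ (fun k _ => sq_nonneg _)
  have hfin : ∫⁻ z, ∑' i, ENNReal.ofReal (((4:ℝ)^i)⁻¹ * (QQ a i z)^2) ∂sq ≠ ⊤ := by
    rw [lintegral_tsum (fun i => ((((QQ_meas a i).pow_const 2).const_mul _).ennreal_ofReal).aemeasurable)]
    have h2 : ∀ i, ∫⁻ z, ENNReal.ofReal (((4:ℝ)^i)⁻¹ * (QQ a i z)^2) ∂sq ≤
        ENNReal.ofReal (∑ k ∈ Finset.Ico (NN (grp i)) (NN (grp i) + 2^(TT (grp i))), (a i k)^2) := by
      intro i
      rw [← ofReal_integral_eq_lintegral_ofReal ((QQ_integrable a i).const_mul _)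
        (ae_of_all _ (fun z => by positivity))]
      apply ENNReal.ofReal_le_ofReal
      rw [integral_const_mul]
      have := QQ_int a i
      have h4 : (0:ℝ) < 4^i := by positivity
      rw [inv_mul_le_iff₀ h4]
      exact this
    refine ne_top_of_le_ne_top ?_ (ENNReal.tsum_le_tsum h2)
    exact hrow.tsum_ofReal_ne_top
  have hae := ae_lt_top (Measurable.tsum
    (fun i => (((QQ_meas a i).pow_const 2).const_mul (((4:ℝ)^i)⁻¹)).ennreal_ofReal)) hfin
  filter_upwards [hae] with z hz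
  by_cases h : z.1 < 1/2
  · set B := (∑' i, ENNReal.ofReal (((4:ℝ)^i)⁻¹ * (QQ a i z)^2)).toReal with hB
    refine ⟨2 * Real.sqrt B, by positivity, ?_⟩
    intro m n
    have hBm : ∑ i ∈ Finset.range (m+1), ((4:ℝ)^i)⁻¹ * (QQ a i z)^2 ≤ B := by
      rw [hB]
      rw [← ENNReal.ofReal_le_iff_le_toReal hz.ne, ENNReal.ofReal_sum_of_nonneg
        (fun i _ => by positivity)]
      exact ENNReal.sum_le_tsum _
    have h1 : |Sint a (m+1) n z| ≤ ∑ i ∈ Finset.range (m+1), QQ a i z := by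
      unfold Sint
      refine (Finset.abs_sum_le_sum_abs _ _).trans ?_
      exact Finset.sum_le_sum (fun i _ => row_bound a i n z h)
    have h2 : (∑ i ∈ Finset.range (m+1), QQ a i z)^2 ≤ (∑ i ∈ Finset.range (m+1), (4:ℝ)^i) * B := by
      have := Finset.sum_mul_sq_le_sq_mul_sq (Finset.range (m+1)) (fun i => (2:ℝ)^i)
        (fun i => ((2:ℝ)^i)⁻¹ * QQ a i z)
      have e1 : ∀ i, (2:ℝ)^i * (((2:ℝ)^i)⁻¹ * QQ a i z) = QQ a i z := by
        intro i; field_simp
      have e2 : ∀ i, ((2:ℝ)^i)^2 = 4^i := by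
        intro i; rw [← pow_mul, mul_comm, pow_mul]; norm_num
      have e3 : ∀ i, (((2:ℝ)^i)⁻¹ * QQ a i z)^2 = ((4:ℝ)^i)⁻¹ * (QQ a i z)^2 := by
        intro i; rw [mul_pow, inv_pow, e2]
      simp_rw [e1, e2, e3] at this
      refine this.trans ?_
      gcongr
    have h3 : ∑ i ∈ Finset.range (m+1), (4:ℝ)^i ≤ 4^(m+1) := by
      rw [geom_sum_eq (by norm_num)]
      have : (0:ℝ) < 4^(m+1) := by positivity
      rw [div_le_iff₀ (by norm_num)]
      nlinarith
    have hB0 : 0 ≤ B := ENNReal.toReal_nonneg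
    have h4 : (∑ i ∈ Finset.range (m+1), QQ a i z)^2 ≤ (2 * Real.sqrt B * 2^m)^2 := by
      refine h2.trans ?_
      have : (2 * Real.sqrt B * 2^m)^2 = 4^(m+1) * B := by
        rw [mul_pow, mul_pow, Real.sq_sqrt hB0, ← pow_mul, mul_comm m 2, pow_mul]
        norm_num
        ring
      rw [this]
      gcongr
    have h5 : 0 ≤ 2 * Real.sqrt B * 2^m := by positivity
    exact h1.trans (abs_le_of_sq_le_sq' h4 h5).2
  · obtain ⟨C, hC0, hC⟩ := right_bound a z h
    refine ⟨C, hC0, fun m n => (hC (m+1) n).trans ?_⟩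
    have : (1:ℝ) ≤ 2^m := one_le_pow₀ (by norm_num)
    nlinarith

lemma NN_succ (g : ℕ) : NN (g+1) = NN g + 2^(TT g) := by
  unfold NN; rw [Finset.sum_range_succ]

lemma NN_strictMono : StrictMono NN := by
  apply strictMono_nat_of_lt_succ
  intro g
  rw [NN_succ]
  have : 0 < 2^(TT g) := by positivity
  omega

lemma block_unique (g h k : ℕ) (h1 : NN g ≤ k) (h2 : k < NN g + 2^(TT g))
    (h3 : NN h ≤ k) (h4 : k < NN h + 2^(TT h)) : g = h := by
  rw [← NN_succ] at h2 h4
  rcases lt_trichotomy g h with hh | hh | hh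
  · have := NN_strictMono.monotone (show g + 1 ≤ h from hh)
    omega
  · exact hh
  · have := NN_strictMono.monotone (show h + 1 ≤ g from hh)
    omega

open Classical in
/-- the coefficients -/
noncomputable def aa (i k : ℕ) : ℝ :=
  if inB i k then ((2:ℝ)^(grp i))⁻¹ * ((2:ℝ)^i)⁻¹ * (Real.sqrt (2^(TT (grp i) + 1)))⁻¹ else 0

/-- fraction of the block to the left of the current position -/
noncomputable def xx (n : ℕ) (w : ℕ) : ℝ :=
  ((w % 2^n : ℕ) : ℝ) * ((2:ℝ)^n)⁻¹ * (if (w / 2^(n-1)) % 2 = 0 then 1 else -1)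

lemma sum_range_mul (f : ℕ → ℝ) (m n : ℕ) :
    ∑ w ∈ Finset.range (m*n), f w = ∑ u ∈ Finset.range m, ∑ v ∈ Finset.range n, f (u*n+v) := by
  induction m with
  | zero => simp
  | succ m ih =>
    rw [Nat.succ_mul, Finset.sum_range_add, ih, Finset.sum_range_succ]

lemma sum_xx (T n : ℕ) (hn : n + 1 ≤ T) :
    ∑ w ∈ Finset.range (2^T), xx (n+1) w = - 2^T / 4 := by
  obtain ⟨d, rfl⟩ : ∃ d, T = d + (n+1) := ⟨T - (n+1), by omega⟩
  rw [pow_add, sum_range_mul]
  have key : ∀ u ∈ Finset.range (2^d), ∑ v ∈ Finset.range (2^(n+1)), xx (n+1) (u*2^(n+1)+v)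
      = - 2^(n+1) / 4 := by
    intro u _
    have h1 : 2^(n+1) = 2 * 2^n := by rw [pow_succ]; ring
    have e1 : Finset.range (2^(n+1)) = Finset.range (2^n + 2^n) := by rw [h1]; congr 1; ring
    rw [e1, Finset.sum_range_add]
    have hp : 0 < 2^n := by positivity
    have a1 : ∀ v ∈ Finset.range (2^n), xx (n+1) (u*2^(n+1)+v) = (v:ℝ) * ((2:ℝ)^(n+1))⁻¹ := by
      intro v hv
      have hv' := Finset.mem_range.1 hv
      unfold xx
      have b1 : (u*2^(n+1)+v) % 2^(n+1) = v := by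
        rw [Nat.mul_add_mod_self_right]
        apply Nat.mod_eq_of_lt
        omega
      have b2 : (u*2^(n+1)+v) / 2^(n+1-1) % 2 = 0 := by
        have : u*2^(n+1)+v = v + (2*u) * 2^n := by rw [pow_succ]; ring
        rw [Nat.add_sub_cancel, this, Nat.add_mul_div_right _ _ hp, Nat.div_eq_of_lt hv']
        omega
      rw [b1, if_pos b2, mul_one]
    have a2 : ∀ v ∈ Finset.range (2^n), xx (n+1) (u*2^(n+1)+(2^n+v)) =
        - (((v:ℝ) + 2^n) * ((2:ℝ)^(n+1))⁻¹) := by
      intro v hv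
      have hv' := Finset.mem_range.1 hv
      unfold xx
      have b1 : (u*2^(n+1)+(2^n+v)) % 2^(n+1) = 2^n + v := by
        rw [Nat.mul_add_mod_self_right]
        apply Nat.mod_eq_of_lt
        omega
      have b2 : ¬ ((u*2^(n+1)+(2^n+v)) / 2^(n+1-1) % 2 = 0) := by
        have : u*2^(n+1)+(2^n+v) = v + (2*u+1) * 2^n := by rw [pow_succ]; ring
        rw [Nat.add_sub_cancel, this, Nat.add_mul_div_right _ _ hp, Nat.div_eq_of_lt hv']
        omega
      rw [b1, if_neg b2]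
      push_cast
      ring
    rw [Finset.sum_congr rfl a1, Finset.sum_congr rfl a2, ← Finset.sum_add_distrib]
    have a3 : ∀ v ∈ Finset.range (2^n), (v:ℝ) * ((2:ℝ)^(n+1))⁻¹ + - (((v:ℝ) + 2^n) * ((2:ℝ)^(n+1))⁻¹)
        = -1/2 := by
      intro v _
      rw [pow_succ]
      field_simp
      ring
    rw [Finset.sum_congr rfl a3, Finset.sum_const, Finset.card_range, nsmul_eq_mul]
    push_cast
    rw [pow_succ]
    ring
  rw [Finset.sum_congr rfl key, Finset.sum_const, Finset.card_range, nsmul_eq_mul]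
  push_cast
  ring

lemma count_block (n l : ℕ) (c : ℝ) :
    ∑ k ∈ Finset.range l, (if l / 2^n = k / 2^n then c else 0) = ((l % 2^n : ℕ) : ℝ) * c := by
  rw [← Finset.sum_filter, Finset.sum_const, nsmul_eq_mul]
  congr 2
  have hp : 0 < 2^n := by positivity
  have : (Finset.range l).filter (fun k => l / 2^n = k / 2^n) = Finset.Ico (l / 2^n * 2^n) l := by
    ext k
    simp only [Finset.mem_filter, Finset.mem_range, Finset.mem_Ico]
    constructor
    · rintro ⟨h1, h2⟩
      refine ⟨?_, h1⟩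
      rw [h2]
      exact Nat.div_mul_le_self k _
    · rintro ⟨h1, h2⟩
      refine ⟨h2, ?_⟩
      symm
      apply Nat.div_eq_of_lt_le h1
      refine lt_of_lt_of_le h2 ?_
      have := Nat.lt_mul_div_succ l hp
      rw [mul_comm] at this
      exact this.le
  rw [this, Nat.card_Ico]
  have := Nat.div_add_mod l (2^n)
  rw [mul_comm] at this
  omega

noncomputable def Dg (g : ℕ) (z : ℝ × ℝ) : ℝ :=
  ∑ i ∈ Finset.Ico (2^g - 1) (2^(g+1) - 1), (((2:ℝ)^g)⁻¹ * ((4:ℝ)^i)⁻¹) *
    ∑ j ∈ DD i, AA z.1 * xx (TT g - j) (fl (TT g) z.2)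

lemma grp_of_mem (g i : ℕ) (h : i ∈ Finset.Ico (2^g - 1) (2^(g+1) - 1)) : grp i = g := by
  rw [Finset.mem_Ico] at h
  unfold grp
  rw [Nat.log_eq_iff (Or.inr ⟨by norm_num, by omega⟩)]
  have : 0 < 2^g := by positivity
  have : 0 < 2^(g+1) := by positivity
  omega

lemma grp_lt_of_lt (g i : ℕ) (h : i < 2^g - 1) : grp i < g := by
  unfold grp
  apply Nat.log_lt_of_lt_pow (by omega)
  omega

lemma xx_abs_le (n w : ℕ) : |xx n w| ≤ 1 := by
  unfold xx
  have h1 : ((w % 2^n : ℕ) : ℝ) ≤ 2^n := by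
    have := (Nat.mod_lt w (show 2^n > 0 by positivity)).le
    exact_mod_cast this
  have h2 : |((w % 2^n : ℕ) : ℝ) * ((2:ℝ)^n)⁻¹| ≤ 1 := by
    rw [abs_of_nonneg (by positivity)]
    rw [mul_inv_le_iff₀ (by positivity), one_mul]
    exact h1
  rw [abs_mul]
  split_ifs
  · simpa using h2
  · simpa using h2

lemma Dg_abs_le (g : ℕ) (z : ℝ × ℝ) : |Dg g z| ≤ 1 := by
  unfold Dg
  refine (Finset.abs_sum_le_sum_abs _ _).trans ?_
  have h1 : ∀ i ∈ Finset.Ico (2^g - 1) (2^(g+1) - 1), |(((2:ℝ)^g)⁻¹ * ((4:ℝ)^i)⁻¹) *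
    ∑ j ∈ DD i, AA z.1 * xx (TT g - j) (fl (TT g) z.2)| ≤ ((2:ℝ)^g)⁻¹ := by
    intro i _
    rw [abs_mul, abs_of_nonneg (show (0:ℝ) ≤ ((2:ℝ)^g)⁻¹ * ((4:ℝ)^i)⁻¹ by positivity)]
    have h2 : |∑ j ∈ DD i, AA z.1 * xx (TT g - j) (fl (TT g) z.2)| ≤ 4^i := by
      refine (Finset.abs_sum_le_sum_abs _ _).trans ?_
      have : ∀ j ∈ DD i, |AA z.1 * xx (TT g - j) (fl (TT g) z.2)| ≤ 1 := by
        intro j _
        rw [abs_mul]
        have a1 := xx_abs_le (TT g - j) (fl (TT g) z.2)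
        unfold AA
        split_ifs
        · simpa using a1
        · simp
      refine (Finset.sum_le_card_nsmul _ _ _ this).trans ?_
      rw [DD_card]; simp
    calc ((2:ℝ)^g)⁻¹ * ((4:ℝ)^i)⁻¹ * |∑ j ∈ DD i, AA z.1 * xx (TT g - j) (fl (TT g) z.2)|
        ≤ ((2:ℝ)^g)⁻¹ * ((4:ℝ)^i)⁻¹ * 4^i := by gcongr
      _ = ((2:ℝ)^g)⁻¹ := by field_simp
  refine (Finset.sum_le_card_nsmul _ _ _ h1).trans ?_
  rw [Nat.card_Ico]
  have : 2^(g+1) - 1 - (2^g - 1) = 2^g := by
    have : 0 < 2^g := by positivity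
    rw [pow_succ]; omega
  rw [this, nsmul_eq_mul]
  push_cast
  rw [mul_inv_cancel₀ (by positivity)]

lemma Dg_meas (g : ℕ) : Measurable (Dg g) := by
  unfold Dg
  refine Finset.measurable_sum _ (fun i _ => ?_)
  refine Measurable.const_mul ?_ _
  refine Finset.measurable_sum _ (fun j _ => ?_)
  exact (AA_meas.comp measurable_fst).mul
    ((measurable_of_countable (xx (TT g - j))).comp ((fl_meas _).comp measurable_snd))

lemma AAxx_int (T n : ℕ) (hn : n + 1 ≤ T) :
    ∫ z, AA z.1 * xx (n+1) (fl T z.2) ∂sq = -1/8 := by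
  rw [sq_int AA (fun y => xx (n+1) (fl T y)), AA_int, int_fl T (xx (n+1)), sum_xx T n hn]
  have : (2:ℝ)^T ≠ 0 := by positivity
  field_simp
  norm_num

lemma Dg_int (g : ℕ) : ∫ z, Dg g z ∂sq = -1/8 := by
  have hI : ∀ j : ℕ, Integrable (fun z : ℝ × ℝ => AA z.1 * xx (TT g - j) (fl (TT g) z.2)) sq := by
    intro j
    refine Integrable.of_bound ((AA_meas.comp measurable_fst).mul
      ((measurable_of_countable (xx (TT g - j))).comp
        ((fl_meas _).comp measurable_snd))).aestronglyMeasurable 1 (ae_of_all _ (fun z => ?_))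
    rw [Real.norm_eq_abs]
    show |AA z.1 * xx (TT g - j) (fl (TT g) z.2)| ≤ 1
    rw [abs_mul]
    have a1 := xx_abs_le (TT g - j) (fl (TT g) z.2)
    unfold AA
    split_ifs
    · simpa using a1
    · simp
  unfold Dg
  rw [integral_finsetSum _ (fun i _ => (integrable_finsetSum _ (fun j _ => hI j)).const_mul _)]
  have h1 : ∀ i ∈ Finset.Ico (2^g - 1) (2^(g+1) - 1), ∫ z, (((2:ℝ)^g)⁻¹ * ((4:ℝ)^i)⁻¹) *
    ∑ j ∈ DD i, AA z.1 * xx (TT g - j) (fl (TT g) z.2) ∂sq = ((2:ℝ)^g)⁻¹ * (-1/8) := by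
    intro i hi
    have hg := grp_of_mem g i hi
    rw [integral_const_mul, integral_finsetSum _ (fun j _ => hI j)]
    have : ∀ j ∈ DD i, ∫ z, AA z.1 * xx (TT g - j) (fl (TT g) z.2) ∂sq = -1/8 := by
      intro j hj
      have hjT := lt_TT i j hj
      rw [hg] at hjT
      obtain ⟨n, hn⟩ : ∃ n, TT g - j = n + 1 := ⟨TT g - j - 1, by omega⟩
      rw [hn]
      exact AAxx_int _ _ (by omega)
    rw [Finset.sum_congr rfl this, Finset.sum_const, DD_card, nsmul_eq_mul]
    push_cast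
    have : (4:ℝ)^i ≠ 0 := by positivity
    field_simp
  rw [Finset.sum_congr rfl h1, Finset.sum_const, Nat.card_Ico]
  have : 2^(g+1) - 1 - (2^g - 1) = 2^g := by
    have : 0 < 2^g := by positivity
    rw [pow_succ]; omega
  rw [this, nsmul_eq_mul]
  push_cast
  have : (2:ℝ)^g ≠ 0 := by positivity
  field_simp

lemma main_sum (i l : ℕ) (z : ℝ × ℝ) (hl : l = fl (TT (grp i)) z.2) :
    ∑ k ∈ Finset.range l, ((2:ℝ)^(grp i))⁻¹ * ((2:ℝ)^i)⁻¹ * (Real.sqrt (2^(TT (grp i) + 1)))⁻¹ *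
      mainF i k z = (((2:ℝ)^(grp i))⁻¹ * ((4:ℝ)^i)⁻¹) *
    ∑ j ∈ DD i, AA z.1 * xx (TT (grp i) - j) (fl (TT (grp i)) z.2) := by
  unfold mainF
  rw [← Finset.mul_sum, Finset.sum_comm, Finset.mul_sum, Finset.mul_sum]
  apply Finset.sum_congr rfl
  intro j hj
  have hjT := lt_TT i j hj
  rw [← Finset.mul_sum]
  have h1 : ∀ k ∈ Finset.range l, haar j (k / 2^(TT (grp i) - j)) z =
      if l / 2^(TT (grp i) - j) = k / 2^(TT (grp i) - j) then AA z.1 * rad j z.2 else 0 := by
    intro k _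
    unfold haar hy
    rw [← fl_div' j (TT (grp i)) hjT.le, ← hl]
    split_ifs <;> simp
  rw [Finset.sum_congr rfl h1, count_block]
  have h2 : rad j z.2 = if (l / 2^(TT (grp i) - j - 1)) % 2 = 0 then 1 else -1 := by
    unfold rad
    rw [← fl_div' (j+1) (TT (grp i)) (by omega), ← hl]
    have : TT (grp i) - (j+1) = TT (grp i) - j - 1 := by omega
    rw [this]
  rw [← hl]
  unfold xx cM
  rw [h2]
  have e4 : (4:ℝ)^i = 2^i * 2^i := by rw [← mul_pow]; norm_num
  have hs : Real.sqrt (2^(TT (grp i) + 1)) ≠ 0 := by positivity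
  rw [e4]
  field_simp

lemma Dg_eq (g : ℕ) (z : ℝ × ℝ) (h : z.1 < 1/2) (h2 : z.2 ≤ 1) :
    Dg g z = Sint aa (2^(g+1) - 1) (NN g + fl (TT g) z.2) z - Sint aa (2^(g+1) - 1) (NN g) z := by
  classical
  have hl : fl (TT g) z.2 ≤ 2^(TT g) := by
    unfold fl
    apply Nat.floor_le_of_le
    push_cast
    have h4 : (0:ℝ) < 2^(TT g) := by positivity
    nlinarith
  unfold Sint
  rw [← Finset.sum_sub_distrib]
  have h3 : ∀ i, ∑ k ∈ Finset.range (NN g + fl (TT g) z.2), aa i k * phi i k z -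
      ∑ k ∈ Finset.range (NN g), aa i k * phi i k z =
      ∑ k ∈ Finset.range (fl (TT g) z.2), aa i (NN g + k) * phi i (NN g + k) z := by
    intro i
    rw [Finset.sum_range_add]; ring
  simp_rw [h3]
  have hle : 2^g - 1 ≤ 2^(g+1) - 1 := by
    rw [pow_succ]; omega
  rw [Finset.range_eq_Ico (2^(g+1) - 1), ← Finset.sum_Ico_consecutive _ (Nat.zero_le _) hle]
  have hz : ∑ i ∈ Finset.Ico 0 (2^g - 1), ∑ k ∈ Finset.range (fl (TT g) z.2),
      aa i (NN g + k) * phi i (NN g + k) z = 0 := by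
    apply Finset.sum_eq_zero
    intro i hi
    apply Finset.sum_eq_zero
    intro k hk
    have hi' := grp_lt_of_lt g i (Finset.mem_Ico.1 hi).2
    have hk' := Finset.mem_range.1 hk
    have : ¬ inB i (NN g + k) := by
      rintro ⟨b1, b2⟩
      have := block_unique g (grp i) (NN g + k) (by omega) (by omega) b1 b2
      omega
    unfold aa
    rw [if_neg this, zero_mul]
  rw [hz, zero_add]
  unfold Dg
  apply Finset.sum_congr rfl
  intro i hi
  have hg := grp_of_mem g i hi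
  have hm := main_sum i (fl (TT g) z.2) z (by rw [hg])
  rw [hg] at hm
  rw [← hm]
  apply Finset.sum_congr rfl
  intro k hk
  have hk' := Finset.mem_range.1 hk
  have hb : inB i (NN g + k) := by
    unfold inB
    rw [hg]; omega
  unfold aa phi
  rw [if_pos hb, if_pos hb, extraF_zero_of_left _ _ z h, add_zero, hg]
  simp

lemma Dg_right (g : ℕ) (z : ℝ × ℝ) (h : ¬ z.1 < 1/2) : Dg g z = 0 := by
  unfold Dg AA
  simp only [if_neg h, zero_mul, Finset.sum_const_zero, mul_zero]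

/-- no almost everywhere convergence -/
lemma not_conv : ¬ ∀ᵐ z ∂sq, ∃ L, ∀ ε > 0, ∃ N, ∀ m ≥ N, ∀ n ≥ N, |Sint aa m n z - L| < ε := by
  intro hc
  have hlim : ∀ᵐ z ∂sq, Tendsto (fun g => Dg g z) atTop (nhds 0) := by
    have hsq : ∀ᵐ z ∂sq, z ∈ Set.Icc (0:ℝ) 1 ×ˢ Set.Icc (0:ℝ) 1 :=
      ae_restrict_mem (measurableSet_Icc.prod measurableSet_Icc)
    filter_upwards [hc, hsq] with z hz hzs
    by_cases h : z.1 < 1/2
    · obtain ⟨L, hL⟩ := hz
      rw [Metric.tendsto_atTop]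
      intro ε hε
      obtain ⟨N, hN⟩ := hL (ε/2) (by positivity)
      refine ⟨N, fun g hg => ?_⟩
      have hg1 : g ≤ NN g := NN_strictMono.le_apply
      have hg2 : g ≤ 2^(g+1) - 1 := by
        have := Nat.lt_two_pow_self (n := g)
        rw [pow_succ]; omega
      have a1 := hN (2^(g+1) - 1) (by omega) (NN g + fl (TT g) z.2) (by omega)
      have a2 := hN (2^(g+1) - 1) (by omega) (NN g) (by omega)
      rw [Real.dist_eq, sub_zero, Dg_eq g z h hzs.2.2]
      have : Sint aa (2^(g+1) - 1) (NN g + fl (TT g) z.2) z - Sint aa (2^(g+1) - 1) (NN g) z =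
        (Sint aa (2^(g+1) - 1) (NN g + fl (TT g) z.2) z - L) - (Sint aa (2^(g+1) - 1) (NN g) z - L) := by
        ring
      rw [this]
      refine (abs_sub _ _).trans_lt ?_
      linarith
    · simp_rw [Dg_right _ z h]
      exact tendsto_const_nhds
  have := tendsto_integral_of_dominated_convergence (fun _ => (1:ℝ))
    (fun g => (Dg_meas g).aestronglyMeasurable) (integrable_const _)
    (fun g => ae_of_all _ (fun z => Dg_abs_le g z)) hlim
  simp_rw [Dg_int] at this
  rw [integral_zero] at this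
  have h2 := tendsto_nhds_unique this tendsto_const_nhds
  norm_num at h2

/-- number of blocks to the left of column k, as a slowly growing weight -/
def cnt (k : ℕ) : ℕ := Nat.findGreatest (fun g => NN g ≤ k) k

lemma cnt_mono : Monotone cnt := by
  intro k l h
  unfold cnt
  exact Nat.findGreatest_mono (fun g hg => le_trans hg h) h

lemma le_cnt (g k : ℕ) (h : NN g ≤ k) : g ≤ cnt k := by
  unfold cnt
  exact Nat.le_findGreatest (le_trans NN_strictMono.le_apply h) h

lemma cnt_le (g k : ℕ) (h : k < NN (g+1)) : cnt k ≤ g := by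
  by_contra hc
  push Not at hc
  have h0 : NN (cnt k) ≤ k := by
    unfold cnt
    exact Nat.findGreatest_spec (P := fun g => NN g ≤ k) (Nat.zero_le k) (by simp [NN])
  have := NN_strictMono.monotone (show g + 1 ≤ cnt k from hc)
  omega

noncomputable def lam (i k : ℕ) : ℝ := 4^i * (1 + (cnt k : ℝ))

lemma lam_ge (i k : ℕ) : (4:ℝ)^i ≤ lam i k := by
  unfold lam
  have : (0:ℝ) < 4^i := by positivity
  have : (0:ℝ) ≤ cnt k := by positivity
  nlinarith

lemma anti_aux : Antitone (fun g : ℕ => ((g:ℝ) + 1) / 4^g) := by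
  apply antitone_nat_of_succ_le
  intro g
  rw [div_le_div_iff₀ (by positivity) (by positivity), pow_succ]
  push_cast
  have : (0:ℝ) < 4^g := by positivity
  have h1 : (0:ℝ) ≤ g := by positivity
  nlinarith

lemma geo_aux : Summable (fun k : ℕ => (k:ℝ)^1 * (1/2:ℝ)^k + (1/2:ℝ)^k) := by
  refine Summable.add ?_ (summable_geometric_of_lt_one (by norm_num) (by norm_num))
  exact summable_pow_mul_geometric_of_norm_lt_one 1 (by norm_num)

lemma log_aux : Summable (fun n : ℕ => ((Nat.log 2 n : ℝ) + 1) / 4^(Nat.log 2 n)) := by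
  rw [← summable_condensed_iff_of_nonneg (f := fun n : ℕ => ((Nat.log 2 n : ℝ) + 1) / 4^(Nat.log 2 n)) (fun n => by positivity)
      (fun m n _ hmn => anti_aux (Nat.log_mono_right hmn))]
  refine geo_aux.congr ?_
  intro k
  have e : Nat.log 2 (2^k) = k := Nat.log_pow (by norm_num) k
  simp only [e]
  have : (4:ℝ)^k = 2^k * 2^k := by rw [← mul_pow]; norm_num
  rw [this, one_div, inv_pow]
  have h2 : (2:ℝ)^k ≠ 0 := by positivity
  field_simp

lemma aux_summable : Summable (fun i : ℕ => ((grp i : ℝ) + 1) / 4^(grp i)) := by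
  have h := (summable_nat_add_iff (f := fun n : ℕ => ((Nat.log 2 n : ℝ) + 1) / 4^(Nat.log 2 n)) 1).2 log_aux
  refine h.congr (fun i => ?_)
  unfold grp
  rfl

lemma aa_summable : Summable (fun p : ℕ × ℕ => aa p.1 p.2 ^ 2 * lam p.1 p.2) := by
  classical
  have hnn : ∀ p : ℕ × ℕ, 0 ≤ aa p.1 p.2 ^ 2 * lam p.1 p.2 := by
    intro p
    have := lam_ge p.1 p.2
    have h4 : (0:ℝ) < 4^p.1 := by positivity
    exact mul_nonneg (sq_nonneg _) (by linarith)
  rw [summable_prod_of_nonneg hnn]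
  have hzero : ∀ i k, k ∉ Finset.Ico (NN (grp i)) (NN (grp i) + 2^(TT (grp i))) →
      aa i k ^ 2 * lam i k = 0 := by
    intro i k hk
    rw [Finset.mem_Ico] at hk
    have : ¬ inB i k := hk
    unfold aa
    rw [if_neg this]
    simp
  refine ⟨fun i => summable_of_ne_finset_zero (s := Finset.Ico (NN (grp i)) (NN (grp i) + 2^(TT (grp i))))
    (fun k hk => hzero i k hk), ?_⟩
  refine Summable.of_nonneg_of_le (fun i => tsum_nonneg (fun k => hnn (i, k))) (fun i => ?_) aux_summable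
  show ∑' k, aa i k ^ 2 * lam i k ≤ _
  rw [tsum_eq_sum (s := Finset.Ico (NN (grp i)) (NN (grp i) + 2^(TT (grp i)))) (fun k hk => hzero i k hk)]
  have h1 : ∀ k ∈ Finset.Ico (NN (grp i)) (NN (grp i) + 2^(TT (grp i))),
      aa i k ^ 2 * lam i k ≤ ((2:ℝ)^(TT (grp i)))⁻¹ * (((grp i : ℝ) + 1) / 4^(grp i)) := by
    intro k hk
    rw [Finset.mem_Ico] at hk
    have hb : inB i k := hk
    have hc : (cnt k : ℝ) ≤ grp i := by
      have := cnt_le (grp i) k (by rw [NN_succ]; exact hk.2)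
      exact_mod_cast this
    unfold aa lam
    rw [if_pos hb, mul_pow, mul_pow, inv_pow (Real.sqrt _), Real.sq_sqrt (by positivity)]
    have e1 : (((2:ℝ)^(grp i))⁻¹)^2 = (4^(grp i))⁻¹ := by
      rw [inv_pow, ← pow_mul, mul_comm, pow_mul]; norm_num
    have e2 : (((2:ℝ)^i)⁻¹)^2 = (4^i)⁻¹ := by
      rw [inv_pow, ← pow_mul, mul_comm, pow_mul]; norm_num
    rw [e1, e2, pow_succ]
    have h4 : (0:ℝ) < 4^i := by positivity
    have h5 : (0:ℝ) < 4^(grp i) := by positivity
    have h6 : (0:ℝ) < 2^(TT (grp i)) := by positivity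
    have h7 : (0:ℝ) ≤ cnt k := by positivity
    calc ((4:ℝ)^(grp i))⁻¹ * (4^i)⁻¹ * (2^(TT (grp i)) * 2)⁻¹ * (4^i * (1 + (cnt k : ℝ)))
        = ((2:ℝ)^(TT (grp i)))⁻¹ * ((1 + (cnt k : ℝ)) / 2 / 4^(grp i)) := by field_simp
      _ ≤ ((2:ℝ)^(TT (grp i)))⁻¹ * (((grp i : ℝ) + 1) / 4^(grp i)) := by
        gcongr
        linarith
  refine (Finset.sum_le_card_nsmul _ _ _ h1).trans ?_
  rw [Nat.card_Ico, nsmul_eq_mul, Nat.add_sub_cancel_left]
  push_cast
  have h6 : (0:ℝ) < 2^(TT (grp i)) := by positivity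
  apply le_of_eq
  field_simp

lemma lam_admissible : Admissible lam := by
  have hc : ∀ k, (0:ℝ) ≤ cnt k := fun k => by positivity
  have h4 : ∀ i, (0:ℝ) < 4^i := fun i => by positivity
  have hm : ∀ k, (cnt k : ℝ) ≤ cnt (k+1) := fun k => by exact_mod_cast cnt_mono (Nat.le_succ k)
  refine ⟨fun i k => lt_of_lt_of_le (h4 i) (lam_ge i k), fun i k => ?_, fun i k => ?_,
    fun B => ?_, fun i k => ?_⟩
  · unfold lam
    rw [pow_succ]
    nlinarith [hc k, h4 i, mul_nonneg (h4 i).le (hc k)]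
  · unfold lam
    nlinarith [hm k, h4 i, mul_le_mul_of_nonneg_left (hm k) (h4 i).le]
  · obtain ⟨N, hN⟩ := pow_unbounded_of_one_lt B (show (1:ℝ) < 4 by norm_num)
    refine ⟨N, fun i k hi _ => ?_⟩
    have : (4:ℝ)^N ≤ 4^i := pow_le_pow_right₀ (by norm_num) hi
    linarith [lam_ge i k]
  · unfold lam
    rw [pow_succ]
    have := mul_nonneg (h4 i).le (sub_nonneg.2 (hm k))
    nlinarith

lemma lam_max (B : ℝ) : ∃ N, ∀ i k, N ≤ max i k → B ≤ lam i k := by
  obtain ⟨N, hN⟩ := pow_unbounded_of_one_lt B (show (1:ℝ) < 4 by norm_num)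
  obtain ⟨M, hM⟩ := exists_nat_gt B
  refine ⟨max N (NN M), fun i k h => ?_⟩
  rcases le_max_iff.1 h with h | h
  · have : (4:ℝ)^N ≤ 4^i := pow_le_pow_right₀ (by norm_num) (le_trans (le_max_left _ _) h)
    linarith [lam_ge i k]
  · have h1 := le_cnt M k (le_trans (le_max_right _ _) h)
    have h2 : (M:ℝ) ≤ cnt k := by exact_mod_cast h1
    have h3 : (1:ℝ) ≤ 4^i := one_le_pow₀ (by norm_num)
    unfold lam
    nlinarith

lemma rectSum_eq (a : ℕ → ℕ → ℝ) (m n : ℕ) (z : ℝ × ℝ) :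
    rectSum a phi m n z = Sint a (m+1) (n+1) z := rfl

lemma phi_growth : HasGrowth phi lam := by
  intro a ha
  filter_upwards [growth a ha] with z hz
  obtain ⟨C, hC0, hC⟩ := hz
  refine ⟨C, fun m n => ?_⟩
  rw [rectSum_eq]
  refine (hC m (n+1)).trans ?_
  have h1 : (2:ℝ)^m ≤ Real.sqrt (lam m n) := by
    apply Real.le_sqrt_of_sq_le
    have : ((2:ℝ)^m)^2 = 4^m := by rw [← pow_mul, mul_comm, pow_mul]; norm_num
    rw [this]
    exact lam_ge m n
  exact mul_le_mul_of_nonneg_left h1 hC0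

/-- There are an admissible `w` (tending to infinity even as `max i k → ∞`), a double orthonormal
system on the unit square with growth `w`, and coefficients with `∑ a i k ^ 2 * w i k < ∞` whose
orthogonal series diverges in the sense of Pringsheim on a set of positive measure. -/
theorem result :
    ∃ w : ℕ → ℕ → ℝ, Admissible w ∧ (∀ B : ℝ, ∃ N, ∀ i k, N ≤ max i k → B ≤ w i k) ∧
      ∃ φ : ℕ → ℕ → ℝ × ℝ → ℝ, DoubleOrthonormal φ ∧ HasGrowth φ w ∧
        ∃ a : ℕ → ℕ → ℝ, Summable (fun p : ℕ × ℕ => a p.1 p.2 ^ 2 * w p.1 p.2) ∧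
          0 < sq {z | ¬ PringsheimConverges a φ z} := by
  refine ⟨lam, lam_admissible, lam_max, phi, ⟨phi_memLp, phi_int⟩, phi_growth, aa, aa_summable, ?_⟩
  rw [pos_iff_ne_zero]
  intro h0
  apply not_conv
  have h1 : ∀ᵐ z ∂sq, PringsheimConverges aa phi z := h0
  filter_upwards [h1] with z hz
  obtain ⟨L, hL⟩ := hz
  refine ⟨L, fun ε hε => ?_⟩
  obtain ⟨N, hN⟩ := hL ε hε
  refine ⟨N+1, fun m hm n hn => ?_⟩
  have := hN (m-1) (by omega) (n-1) (by omega)
  rw [rectSum_eq] at this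
  have e1 : m - 1 + 1 = m := by omega
  have e2 : n - 1 + 1 = n := by omega
  rw [e1, e2] at this
  exact this

end Pool.Agent.Results.MP_8173ef_an.PringsheimFails
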